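import Mathlib

/-!
# An idempotent quasigroup of order 12 orthogonal to its (3,2,1)-conjugate
-/

set_option autoImplicit false

namespace Pool.Agent.Results.MP_b1d8d5_co.OrderTwelve

/-- `op` is a quasigroup operation: `a ∘ x = b` and `x ∘ a = b` have exactly one solution each. -/
def IsQuasigroup {S : Type*} (op : S → S → S) : Prop :=
  (∀ a b, ∃! x, op a x = b) ∧ (∀ a b, ∃! x, op x a = b)

/-- `op` is idempotent: `x ∘ x = x`. -/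
def IsIdempotent {S : Type*} (op : S → S → S) : Prop := ∀ x, op x x = x

/-- `star` is the (3,2,1)-conjugate of `op`: `z ⋆ y = x` iff `x ∘ y = z`. -/
def IsConj321 {S : Type*} (op star : S → S → S) : Prop :=
  ∀ x y z, star z y = x ↔ op x y = z

/-- `op` and `star` are orthogonal: there are no `a ≠ b` and `c ≠ d` with `a ∘ c = b ∘ d` and
`a ⋆ c = b ⋆ d`. -/
def Orthogonal {S : Type*} (op star : S → S → S) : Prop :=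
  ¬ ∃ a b c d : S, a ≠ b ∧ c ≠ d ∧ op a c = op b d ∧ star a c = star b d

/-- A (3,2,1)-COILS of order `v` exists: an idempotent quasigroup on `v` elements which is
orthogonal to its (3,2,1)-conjugate (itself a quasigroup). -/
def ExistsCOILS (v : ℕ) : Prop :=
  ∃ op star : Fin v → Fin v → Fin v, IsQuasigroup op ∧ IsIdempotent op ∧ IsQuasigroup star ∧
    IsConj321 op star ∧ Orthogonal op star

/-- the operation -/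
def T : Fin 12 → Fin 12 → Fin 12 :=
  ![![0, 10, 1, 11, 9, 3, 8, 4, 2, 5, 7, 6],
    ![4, 1, 11, 2, 6, 10, 7, 9, 5, 3, 0, 8],
    ![11, 5, 2, 6, 3, 7, 9, 8, 10, 0, 4, 1],
    ![8, 6, 0, 3, 7, 4, 2, 10, 9, 11, 1, 5],
    ![5, 9, 7, 1, 4, 8, 0, 3, 11, 10, 6, 2],
    ![9, 0, 10, 8, 2, 5, 3, 1, 4, 6, 11, 7],
    ![3, 2, 4, 10, 8, 11, 6, 0, 7, 1, 5, 9],
    ![6, 4, 3, 5, 11, 9, 10, 7, 1, 8, 2, 0],
    ![10, 7, 5, 4, 0, 6, 1, 11, 8, 2, 9, 3],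
    ![7, 11, 8, 0, 5, 1, 4, 2, 6, 9, 3, 10],
    ![2, 8, 6, 9, 1, 0, 11, 5, 3, 7, 10, 4],
    ![1, 3, 9, 7, 10, 2, 5, 6, 0, 4, 8, 11]]

/-- its (3,2,1)-conjugate (right division) -/
def C : Fin 12 → Fin 12 → Fin 12 :=
  ![![0, 5, 3, 9, 8, 10, 4, 6, 11, 2, 1, 7],
    ![11, 1, 0, 4, 10, 9, 8, 5, 7, 6, 3, 2],
    ![10, 6, 2, 1, 5, 11, 3, 9, 0, 8, 7, 4],
    ![6, 11, 7, 3, 2, 0, 5, 4, 10, 1, 9, 8],
    ![1, 7, 6, 8, 4, 3, 9, 0, 5, 11, 2, 10],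
    ![4, 2, 8, 7, 9, 5, 11, 10, 1, 0, 6, 3],
    ![7, 3, 10, 2, 1, 8, 6, 11, 9, 5, 4, 0],
    ![9, 8, 4, 11, 3, 2, 1, 7, 6, 10, 0, 5],
    ![3, 10, 9, 5, 6, 4, 0, 2, 8, 7, 11, 1],
    ![5, 4, 11, 10, 0, 7, 2, 1, 3, 9, 8, 6],
    ![8, 0, 5, 6, 11, 1, 7, 3, 2, 4, 10, 9],
    ![2, 9, 1, 0, 7, 6, 10, 8, 4, 3, 5, 11]]

/-- left division -/
def D : Fin 12 → Fin 12 → Fin 12 :=
  ![![0, 2, 8, 5, 7, 9, 11, 10, 6, 4, 1, 3],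
    ![10, 1, 3, 9, 0, 8, 4, 6, 11, 7, 5, 2],
    ![9, 11, 2, 4, 10, 1, 3, 5, 7, 6, 8, 0],
    ![2, 10, 6, 3, 5, 11, 1, 4, 0, 8, 7, 9],
    ![6, 3, 11, 7, 4, 0, 10, 2, 5, 1, 9, 8],
    ![1, 7, 4, 6, 8, 5, 9, 11, 3, 0, 2, 10],
    ![7, 9, 1, 0, 2, 10, 6, 8, 4, 11, 3, 5],
    ![11, 8, 10, 2, 1, 3, 0, 7, 9, 5, 6, 4],
    ![4, 6, 9, 11, 3, 2, 5, 1, 8, 10, 0, 7],
    ![3, 5, 7, 10, 6, 4, 8, 0, 2, 9, 11, 1],
    ![5, 4, 0, 8, 11, 7, 2, 9, 1, 3, 10, 6],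
    ![8, 0, 5, 1, 9, 6, 7, 3, 10, 2, 4, 11]]

/-- left division for the conjugate -/
def D2 : Fin 12 → Fin 12 → Fin 12 :=
  ![![0, 10, 9, 2, 6, 1, 7, 11, 4, 3, 5, 8],
    ![2, 1, 11, 10, 3, 7, 9, 8, 6, 5, 4, 0],
    ![8, 3, 2, 6, 11, 4, 1, 10, 9, 7, 0, 5],
    ![5, 9, 4, 3, 7, 6, 0, 2, 11, 10, 8, 1],
    ![7, 0, 10, 5, 4, 8, 2, 1, 3, 6, 11, 9],
    ![9, 8, 1, 11, 0, 5, 10, 3, 2, 4, 7, 6],
    ![11, 4, 3, 1, 10, 9, 6, 0, 5, 8, 2, 7],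
    ![10, 6, 5, 4, 2, 11, 8, 7, 1, 0, 9, 3],
    ![6, 11, 7, 0, 5, 3, 4, 9, 8, 2, 1, 10],
    ![4, 7, 6, 8, 1, 0, 11, 5, 10, 9, 3, 2],
    ![1, 5, 8, 7, 9, 2, 3, 6, 0, 11, 10, 4],
    ![3, 2, 0, 9, 8, 10, 5, 4, 7, 1, 6, 11]]

/-- recovers the row from the pair of products -/
def A : Fin 12 → Fin 12 → Fin 12 :=
  ![![0, 10, 5, 1, 11, 7, 8, 3, 2, 4, 9, 6],
    ![8, 1, 11, 0, 2, 6, 7, 9, 4, 3, 5, 10],
    ![7, 9, 2, 6, 1, 3, 11, 8, 10, 5, 4, 0],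
    ![4, 8, 10, 3, 7, 2, 1, 6, 9, 11, 0, 5],
    ![3, 5, 9, 11, 4, 8, 0, 2, 7, 10, 6, 1],
    ![9, 4, 0, 10, 6, 5, 2, 1, 3, 8, 11, 7],
    ![5, 2, 4, 9, 8, 10, 6, 0, 11, 7, 1, 3],
    ![11, 0, 3, 5, 10, 9, 4, 7, 1, 6, 8, 2],
    ![10, 6, 1, 4, 0, 11, 3, 5, 8, 2, 7, 9],
    ![6, 11, 7, 2, 5, 1, 10, 4, 0, 9, 3, 8],
    ![2, 7, 6, 8, 3, 0, 9, 11, 5, 1, 10, 4],
    ![1, 3, 8, 7, 9, 4, 5, 10, 6, 0, 2, 11]]

theorem T_D : ∀ a b, T a (D a b) = b := by decide +kernel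
theorem D_T : ∀ a x, D a (T a x) = x := by decide +kernel
theorem T_C : ∀ a b, T (C b a) a = b := by decide +kernel
theorem C_T : ∀ x y, C (T x y) y = x := by decide +kernel
theorem C_D2 : ∀ a b, C a (D2 a b) = b := by decide +kernel
theorem D2_C : ∀ a x, D2 a (C a x) = x := by decide +kernel
theorem T_idem : ∀ x, T x x = x := by decide +kernel
theorem A_pair : ∀ a c, A (T a c) (C a c) = a := by decide +kernel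

/-- **A (3,2,1)-COILS of order 12 exists.** -/
theorem result : ExistsCOILS 12 := by
  refine ⟨T, C, ⟨fun a b => ⟨D a b, T_D a b, fun x hx => ?_⟩, fun a b => ⟨C b a, T_C a b, fun x hx => ?_⟩⟩,
    T_idem, ⟨fun a b => ⟨D2 a b, C_D2 a b, fun x hx => ?_⟩, fun a b => ⟨T b a, C_T b a, fun x hx => ?_⟩⟩,
    fun x y z => ⟨fun h => ?_, fun h => ?_⟩, ?_⟩
  · simp only at hx
    rw [← hx, D_T]
  · simp only at hx
    rw [← hx, C_T]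
  · simp only at hx
    rw [← hx, D2_C]
  · simp only at hx
    rw [← hx, T_C]
  · rw [← h, T_C]
  · rw [← h, C_T]
  · rintro ⟨a, b, c, d, hab, _, h1, h2⟩
    apply hab
    rw [← A_pair a c, ← A_pair b d, h1, h2]

end Pool.Agent.Results.MP_b1d8d5_co.OrderTwelve

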